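import Pool.Agent.Helper48.Lang.Goals
import Pool.Agent.Helper48.Lang.GRO
import Pool.Agent.Helper66.Lang.MPT
import Pool.Agent.Helper66.Lang.CHAIN
import Pool.Agent.Helper33.Lang.KP
import Pool.Agent.Helper33.Lang.LC
import Pool.Agent.Helper69.Lang.MIN
import Pool.Agent.Helper51.Lang.CERT
import Pool.Agent.Helper83.Lang.FIN
import Pool.Agent.Helper27.Lang.CNT
import Pool.Agent.Helper27.Lang.MPR
import Pool.Agent.Helper49.Lang.DEG
import Pool.Agent.Helper89.Lang.TAY
import Pool.Agent.Helper70.TW.Link1

/-!
# MP_c7dfba_nt : Lang's conjecture on nonreal fields over real closed fields (full answer of Q1)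

Lang (1953) conjectured that a nonreal field `K` of transcendence degree `i` over a real closed
field `R` is a `C_i`-field.  We prove the conjecture, in the version for systems of forms of
arbitrary degrees `d_1, ..., d_r ≥ 1` in `n > d_1^i + ... + d_r^i` variables.

The proof is a minimum principle of second order.  As `K` is nonreal there are
`u_0 = 1, u_1, ..., u_s ∈ K` with `∑ u_a^2 = 0`.  Choose finite-dimensional `R`-subspaces `A`, `B` of
`K` with `u_a B ⊆ A` and such that for every `x ∈ A^n` there is `0 ≠ y ∈ B^n` with
`D f_j (x) y = 0` for all `j`; they exist by the dimension count of the theorem of Tsen and Lang.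
Over `R = ℝ`, let `x` be a point of the unit sphere of `A^n` where the norm of `F = (f_j)` is minimal.
If this minimum is not `0`, then by homogeneity the second derivative of `|F|^2` at `x` is positive
in all directions `v ≠ 0` with `D F (x) v = 0`.  The vectors `v_a = u_a y` are such directions, but the
sum of the second derivatives in these directions is `0`, because `∑ u_a^2 = 0`.  So the minimum is
`0`.  For other real closed fields the minimum principle is transferred from `ℝ`.
-/

namespace Pool.Agent.Results.MP_c7dfba_nt.LangConjecture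

universe u v

/-- **Lang's conjecture.**  Let `K` be a nonreal field of transcendence degree (at most) `i` over a
real closed field `R`.  Then `K` is a `C_i`-field: forms `f_1, ..., f_r` over `K` of degrees
`d_1, ..., d_r ≥ 1` in `n > d_1^i + ... + d_r^i` variables have a common nontrivial zero. -/
theorem result (R : Type v) (K : Type u) [Field R] [IsRealClosed R] [Field K] [Algebra R K]
    (i : ℕ) (htr : Algebra.trdeg R K ≤ (i : Cardinal.{u})) (hK : IsSumSq (-1 : K))
    (n r : ℕ) (d : Fin r → ℕ) (f : Fin r → MvPolynomial (Fin n) K)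
    (hd : ∀ j, 1 ≤ d j) (hf : ∀ j, (f j).IsHomogeneous (d j)) (hn : ∑ j, d j ^ i < n) :
    ∃ a : Fin n → K, a ≠ 0 ∧ ∀ j, MvPolynomial.eval a (f j) = 0 :=
  Pool.Agent.Helper83.Lang.c_fin
    (Pool.Agent.Helper33.Lang.c_kp Pool.Agent.Helper33.Lang.c_lc
      Pool.Agent.Helper66.Lang.c_chain
      (Pool.Agent.Helper66.Lang.c_mpt Pool.Agent.Helper70.TW.Link.tt
        (Pool.Agent.Helper27.Lang.c_mpr
          (Pool.Agent.Helper69.Lang.c_min Pool.Agent.Helper89.Lang.TAY.c_tay)
          Pool.Agent.Helper51.Lang.c_cert)))
    Pool.Agent.Helper48.Lang.GRO.c_gro Pool.Agent.Helper27.Lang.c_cnt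
    Pool.Agent.Helper49.Lang.c_deg R K i htr hK n r d f hd hf hn

end Pool.Agent.Results.MP_c7dfba_nt.LangConjecture
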