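import Pool.Agent.Helper70.TW.Link2

/-!
# MP_c7dfba_nt : the twisted Tsen-Lang theorem

Let `R` be a real closed field, `K` an extension of `R` of transcendence degree at most `i` in which
`-1` is not a square (nonreal or not), `L = K(√-1)` and `σ` its conjugation over `K`.  We consider
systems of equations `f_l (z, σ z) = 0` with unknowns `z ∈ L^ι`, where `f_l` is bihomogeneous of
bidegree `(a_l, b_l)` in `(z, σ z)` with `a_l ≠ b_l`; equivalently: systems of pairs of forms of
degree `a_l + b_l` over `K`, in twice as many variables, on which the norm one torus of `L / K` acts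
through nontrivial characters.  For these systems the bound of Lang's conjecture holds:
there is a nontrivial solution if the number of unknowns `z` is bigger than `∑ (a_l + b_l)^i`.
More generally the unknowns may be divided in blocks, with equations homogeneous in each block, and
there is a solution all of whose blocks are nonzero.

The case `i = 0` is a Borsuk-Ulam theorem with weights for products of spheres, over an arbitrary real
closed field.
-/

namespace Pool.Agent.Results.MP_c7dfba_nt.TwistedTsenLang

universe u v

/-- The twisted Tsen-Lang theorem. -/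
theorem result (R : Type v) (K L : Type u) [Field R] [IsRealClosed R] [Field K] [Algebra R K]
    (i : ℕ) (htr : Algebra.trdeg R K ≤ (i : Cardinal.{u}))
    [Field L] [Algebra K L] (σ : L →ₐ[K] L) (I : L) (hI : I ^ 2 = -1) (hσ : σ I = -I)
    (hL : ∀ x : L, ∃ a b : K, x = algebraMap K L a + algebraMap K L b * I)
    (ι κ Λ : Type) [Fintype ι] [DecidableEq ι] [Fintype κ] [DecidableEq κ] [Fintype Λ]
    (b : ι → κ) (α β : Λ → κ → ℕ) (f : Λ → MvPolynomial (ι ⊕ ι) L)
    (hf : ∀ l, ∀ d ∈ (f l).support, ∀ k,
      ∑ j with b j = k, d (Sum.inl j) = α l k ∧ ∑ j with b j = k, d (Sum.inr j) = β l k)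
    (hne : ∀ l, α l ≠ β l)
    (hn : ∀ k, ∑ l, (∑ k', (α l k' + β l k')) ^ i <
      (Finset.univ.filter (fun j => b j = k)).card) :
    ∃ z : ι → L, (∀ k, ∃ j, b j = k ∧ z j ≠ 0) ∧
      ∀ l, MvPolynomial.eval (Sum.elim z (fun j => σ (z j))) (f l) = 0 := by
  have hcharR := Helper70.Lang.charZero_of_rc R
  have hcharK : CharZero K := charZero_of_injective_algebraMap (algebraMap R K).injective
  exact Pool.Agent.Helper27.TW.twf K L σ I two_ne_zero hI hσ hL i
    (Pool.Agent.Helper70.TW.Link.tpmr R K i htr) ι κ Λ b α β f hne hf hn

end Pool.Agent.Results.MP_c7dfba_nt.TwistedTsenLang
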